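import Pool.Agent.Zk45.DSA
import Pool.Agent.Zk45.DSC

/-! # Freeness in the double shuffle Lie algebra for classes of weights of equal digit sum

For an odd number `w` let `ψ_w` be ANY element of `Lie[x₀, x₁]` (for instance of `dm`), homogeneous of weight `w`,
which is not zero in depth one. In the depth graded Lie algebra the elements `(ad x₀)^(w - 1) x₁` of all odd
weights satisfy the relations given by the period polynomials (the first one is in weight `12`, between
`{ψ_3, ψ_9}` and `{ψ_5, ψ_7}`), so that a condition on the weights is needed for the freeness of arbitrary such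
elements.

**Theorem.** Let `B` be a set of odd weights and `p` a prime such that `p` divides the binomial coefficients
`binom(w - 1, w' - 1)` for all `w ≠ w'` in `B` (no two of the numbers `w - 1` are comparable digit by digit in
base `p`). Then the `ψ_w`, `w ∈ B`, freely generate a free Lie algebra under the Ihara bracket. This applies to the
set of ALL odd weights `w` for which `w - 1` has a given digit sum `s` in base `p`, for every prime `p` (`2` and
`3` included) and every `s`. For `p = 2` these classes (`3, 5, 9, 17, …`; `7, 11, 13, 19, 21, 25, …`;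
`15, 23, 27, 29, …`; …) are a partition of all odd weights `≥ 3`, and of the `4^k` odd numbers below `2 · 4^k` at
least `4^k / (2 √k)` are in one class. (The starting result `PrimePowerWeights` is the case of the weights
`2 p^e + 1`, `p ≥ 5`.)

Proof. Let `L_n`, `n` even, be the operator `g ↦ f g + D_f g` for `f = (ad x₀)^n x₁`. The coefficient of `L_n g` at
the word with the exponents `(k₁, …, k_d)` is the sum, over all pairs of neighbours `k, l`, of
`(-1)^k binom(n, k) - (-1)^l binom(n, l)` times the coefficient of `g` at the word where `k, l` are replaced by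
`k + l - n` (and the coefficient of `g` at `(k₁, …, k_(d-1))` if `k_d = n`). If all `k_i` and `n` are in the
antichain then, modulo `p`, a pair contributes `[k = n] g(… l …) - [l = n] g(… k …)`. This telescopes: modulo `p`
the coefficient is `g(k₂, …, k_d)` if `k₁ = n`, and zero otherwise. So the coefficient of `L_(n₁) ⋯ L_(n_d) 1` at
`(k₁, …, k_d)` is, modulo `p`, one for `k = n` and zero otherwise, and the elements `L_(n₁) ⋯ L_(n_d) 1` are
linearly independent over `ℚ`. -/

set_option autoImplicit false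

namespace Pool.Agent.Results.MP_ec2393_nt.DigitSumClasses

open Pool.Agent.H777R4.DM

attribute [local instance 100] LieRing.ofAssociativeRing

/-- `ψ` is in `Lie[x₀, x₁]`, homogeneous of weight `w`, and not zero in depth one: the coefficient at
`x₀^(w - 1) x₁` is not zero. -/
def NonzeroDepthOne (w : ℕ) (ψ : A) : Prop :=
  ψ ∈ LieX ∧ (∀ u, co ψ u ≠ 0 → u.length = w) ∧ co ψ (List.replicate (w - 1) 0 ++ [1]) ≠ 0

/-- `ψ₁, …, ψₙ` freely generate a free Lie algebra under the Ihara bracket: there is an injective linear map `φ`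
on `ℚ⟨X₁, …, Xₙ⟩` with `φ Xᵢ = ψᵢ` that carries the bracket `[P, Q] = PQ - QP` of the free Lie algebra on
`X₁, …, Xₙ` to the Ihara bracket. -/
def FreelyGenerate {n : ℕ} (ψ : Fin n → A) : Prop :=
  ∃ φ : Al (Fin n) →ₗ[ℚ] A, Function.Injective φ ∧ (∀ i, φ (wd [i]) = ψ i) ∧
    ∀ P ∈ LieN n, ∀ Q ∈ LieN n, φ (P * Q - Q * P) = ihara (φ P) (φ Q)

/-- Any finite number of elements of `Lie[x₀, x₁]` which are homogeneous of different weights in `B`, and not zero
in depth one, freely generate a free Lie algebra. -/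
def FreeClass (B : Set ℕ) : Prop :=
  ∀ (n : ℕ) (w : Fin n → ℕ), Function.Injective w → (∀ i, w i ∈ B) →
    ∀ ψ : Fin n → A, (∀ i, NonzeroDepthOne (w i) (ψ i)) → FreelyGenerate ψ

/-- (1) Antichains of odd weights modulo any prime. (2) The odd weights `w ≥ 3` with a given digit sum of `w - 1`
in any prime base. (3) For every `k ≥ 1` there is such a class with at least `4^k / (2 √k)` of the `4^k` odd
numbers below `2 · 4^k`. -/
theorem result :
    (∀ p : ℕ, p.Prime → ∀ B : Set ℕ, (∀ w ∈ B, Odd w ∧ 3 ≤ w) →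
      (∀ w ∈ B, ∀ w' ∈ B, w ≠ w' → p ∣ (w - 1).choose (w' - 1)) → FreeClass B) ∧
    (∀ p : ℕ, p.Prime → ∀ s : ℕ,
      FreeClass {w | Odd w ∧ 3 ≤ w ∧ (Nat.digits p (w - 1)).sum = s}) ∧
    (∀ k : ℕ, 1 ≤ k → ∃ B : Finset ℕ, (∀ w ∈ B, Odd w ∧ 3 ≤ w ∧ w < 2 * 4 ^ k) ∧
      (4 ^ k : ℝ) / (2 * √k) ≤ B.card ∧ FreeClass B) := by
  have key : ∀ p : ℕ, p.Prime → ∀ B : Set ℕ, (∀ w ∈ B, Odd w ∧ 3 ≤ w) →
      (∀ w ∈ B, ∀ w' ∈ B, w ≠ w' → p ∣ (w - 1).choose (w' - 1)) → FreeClass B := by
    intro p hp B hB hanti n w hw hwB ψ hψ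
    have hb : ∀ i, ∃ b, 1 ≤ b ∧ w i = 2 * b + 1 := by
      intro i
      obtain ⟨⟨b, hb⟩, h3⟩ := hB (w i) (hwB i)
      exact ⟨b, by omega, hb⟩
    choose b hb1 hb2 using hb
    have hinj := Pool.Agent.Zk45.DSA.main p hp n b hb1 (by
      intro i j hij
      have h := hanti (w i) (hwB i) (w j) (hwB j) (fun h => hij (hw h))
      rw [hb2 i, hb2 j] at h
      exact h) ψ (fun i => (hψ i).1) (fun i u hu => by
        rw [(hψ i).2.1 u hu, hb2 i]) (fun i => by
        have h := (hψ i).2.2
        rw [hb2 i] at h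
        exact h)
    exact ⟨PhiN ψ, hinj, (Pool.Agent.H358R3.DM.taskFinalN n ψ).1,
      (Pool.Agent.H358R3.DM.taskFinalN n ψ).2⟩
  have key2 : ∀ p : ℕ, p.Prime → ∀ s : ℕ,
      FreeClass {w | Odd w ∧ 3 ≤ w ∧ (Nat.digits p (w - 1)).sum = s} := by
    intro p hp s
    refine key p hp _ (fun w hw => ⟨hw.1, hw.2.1⟩) ?_
    rintro w ⟨hw1, hw2, hw3⟩ w' ⟨hw1', hw2', hw3'⟩ hne
    exact Pool.Agent.Zk45.DSC.dvd_choose_of_sum p hp _ _ (by omega) (by rw [hw3, hw3'])
  refine ⟨key, key2, fun k hk => ?_⟩
  refine ⟨(Pool.Agent.Zk45.DSC.cls (2 * k) k).image (fun m => 2 * m + 1), ?_, ?_, ?_⟩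
  · intro w hw
    rw [Finset.mem_image] at hw
    obtain ⟨m, hm, rfl⟩ := hw
    unfold Pool.Agent.Zk45.DSC.cls at hm
    rw [Finset.mem_filter, Finset.mem_range] at hm
    have hm0 : m ≠ 0 := by
      rintro rfl
      have := hm.2
      simp at this
      omega
    refine ⟨⟨m, rfl⟩, by omega, ?_⟩
    have h4 : (2 : ℕ) ^ (2 * k) = 4 ^ k := by rw [pow_mul]; norm_num
    omega
  · rw [Finset.card_image_of_injective _ (fun a b h => by
      have h' : 2 * a + 1 = 2 * b + 1 := h
      omega), Pool.Agent.Zk45.DSC.cls_card]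
    have h1 := Pool.Agent.Zk45.DSC.central k hk
    have hk0 : (0 : ℝ) < √k := Real.sqrt_pos.2 (by exact_mod_cast hk)
    rw [div_le_iff₀ (by positivity)]
    have h2 : ((4 : ℝ) ^ k) ^ 2 ≤ (((2 * k).choose k : ℝ) * (2 * √k)) ^ 2 := by
      have e1 : (((2 * k).choose k : ℝ) * (2 * √k)) ^ 2 = 4 * k * ((2 * k).choose k : ℝ) ^ 2 := by
        rw [mul_pow, mul_pow, Real.sq_sqrt (by positivity)]
        ring
      have e2 : ((4 : ℝ) ^ k) ^ 2 = 16 ^ k := by
        rw [← pow_mul, mul_comm, pow_mul]
        norm_num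
      rw [e1, e2]
      exact_mod_cast h1
    exact le_of_sq_le_sq h2 (by positivity)
  · intro n w hw hwB ψ hψ
    refine key2 2 Nat.prime_two k n w hw (fun i => ?_) ψ hψ
    have h := hwB i
    rw [Finset.mem_coe, Finset.mem_image] at h
    obtain ⟨m, hm, hmw⟩ := h
    unfold Pool.Agent.Zk45.DSC.cls at hm
    rw [Finset.mem_filter, Finset.mem_range] at hm
    have hm0 : m ≠ 0 := by
      rintro rfl
      have := hm.2
      simp at this
      omega
    rw [← hmw]
    refine ⟨⟨m, rfl⟩, by omega, ?_⟩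
    rw [Nat.add_sub_cancel, Pool.Agent.Zk45.DSC.sum_two_mul]
    exact hm.2

end Pool.Agent.Results.MP_ec2393_nt.DigitSumClasses
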