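import Pool.Agent.Y759.DS.Quot
import Pool.Agent.Zk87.PL.Fin

/-! MP_ec2393_nt: in odd weight the double shuffle Lie algebra `dm` modulo the elements with at
least five letters `x₀` in each word is not larger than the motivic Lie algebra. -/

set_option autoImplicit false

namespace Pool.Agent.Results.MP_ec2393_nt.OddWeightFourLetters

open Pool.Agent.H777R4.DM

/-- The elements of `dm`, homogeneous of weight `N`, all of whose words contain at least `k`
letters `x₀`. -/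
def Fil (N k : ℕ) : Submodule ℚ A where
  carrier := {ψ | IsDM ψ ∧ ∀ u, co ψ u ≠ 0 → u.length = N ∧ k ≤ u.count 0}
  add_mem' := by
    rintro ψ φ ⟨h1, h2⟩ ⟨h3, h4⟩
    refine ⟨isDM_add h1 h3, fun u hu => ?_⟩
    rw [co_add] at hu
    by_cases h : co ψ u = 0
    · refine h4 u fun h' => hu ?_
      rw [h, h', add_zero]
    · exact h2 u h
  zero_mem' := ⟨isDM_zero, fun u hu => absurd (co_zero u) hu⟩
  smul_mem' := by
    rintro c ψ ⟨h1, h2⟩
    refine ⟨isDM_smul h1 c, fun u hu => h2 u fun h' => hu ?_⟩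
    rw [co_smul, h', mul_zero]

theorem three_four {N : ℕ} {ψ : A} (h : ψ ∈ Fil N 3) (h0 : Zk87.PL.Th ψ = 0) :
    ψ ∈ Fil N 4 := by
  obtain ⟨h1, h2⟩ := h
  refine ⟨h1, fun u hu => ⟨(h2 u hu).1, ?_⟩⟩
  have h3 := (h2 u hu).2
  by_contra hlt
  exact hu (Zk87.PL.Th_ker h1 (fun v hv => (h2 v hv).1) h0 u (by omega))

theorem four_five {N : ℕ} (hN : Odd N) : Fil N 4 ≤ Fil N 5 := by
  rintro ψ ⟨h1, h2⟩
  refine ⟨h1, fun u hu => ⟨(h2 u hu).1, ?_⟩⟩
  have h3 := (h2 u hu).2
  by_contra hlt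
  exact hu (Zk87.PL.four_odd h1 (fun v hv => (h2 v hv).1) hN (fun v hv => (h2 v hv).2) u
    (by omega))

/-- the space of the layer of three letters -/
theorem layer (N : ℕ) (hN : Odd N) : ∃ W : Submodule ℚ Zk87.PL.Fn, FiniteDimensional ℚ W ∧
    (∀ ψ ∈ Fil N 3, Zk87.PL.Th ψ ∈ W) ∧ Module.finrank ℚ W ≤ ((N - 3) ^ 2 - 1) / 48 := by
  by_cases h5 : 5 ≤ N
  · obtain ⟨k, hk⟩ := hN
    obtain ⟨s, rfl⟩ : ∃ s, k = s + 1 := ⟨k - 1, by omega⟩
    subst hk
    refine ⟨Zk87.PL.XX3 (2 * s), inferInstance, ?_, ?_⟩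
    · rintro ψ ⟨h1, h2⟩
      exact Zk87.PL.Th_mem_XX3 h1 (fun v hv => (h2 v hv).1) ⟨s + 1, rfl⟩
        (fun v hv => (h2 v hv).2) (2 * s) (by omega)
    · have h1 := Zk87.PL.finrank_XX3_le s (by omega)
      have h2 : (2 * (s + 1) + 1 - 3) ^ 2 = 4 * s ^ 2 := by
        have : 2 * (s + 1) + 1 - 3 = 2 * s := by omega
        rw [this]; ring
      rw [h2]
      exact h1
  · refine ⟨⊥, inferInstance, ?_, ?_⟩
    · rintro ψ ⟨h1, h2⟩
      have h0 : ψ = 0 := by
        refine al_ext fun u => ?_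
        rw [co_zero]
        by_contra hu
        have h3 := (taskSmall_proof taskTwoB Pool.Agent.H352.DSH.taskTwoC ψ h1 u
          hu).2
        have h4 := h2 u hu
        have h5 : u.count 0 + u.count 1 = u.length := Pool.Agent.TH19.DS.count_len u
        obtain ⟨k, hk⟩ := hN
        omega
      rw [h0, map_zero]
      exact Submodule.zero_mem _
    · simp

/-- Let `dm_N` be the part of weight `N` of `dm` and let `N` be odd.

* An element of `dm_N` with at least four letters `x₀` in each of its words has at least five.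
* The elements of `dm_N` with at least three letters `x₀` in each word, modulo those with at least
  five, form a space of dimension at most `⌊((N - 3)² - 1) / 48⌋`.
* `dm_N` modulo the elements with at least five letters `x₀` in each word has dimension at most
  `1 + ⌊((N - 3)² - 1) / 48⌋`.

(The subtractions are those of natural numbers, so that the bound is `0` for `N ≤ 3`.) -/
theorem result (N : ℕ) (hN : Odd N) :
    Fil N 4 ≤ Fil N 5 ∧
    (Module.Finite ℚ (Fil N 3 ⧸ (Fil N 5).submoduleOf (Fil N 3)) ∧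
      Module.finrank ℚ (Fil N 3 ⧸ (Fil N 5).submoduleOf (Fil N 3)) ≤ ((N - 3) ^ 2 - 1) / 48) ∧
    (Module.Finite ℚ (Fil N 0 ⧸ (Fil N 5).submoduleOf (Fil N 0)) ∧
      Module.finrank ℚ (Fil N 0 ⧸ (Fil N 5).submoduleOf (Fil N 0)) ≤
        1 + ((N - 3) ^ 2 - 1) / 48) := by
  obtain ⟨W, hW, h1, h2⟩ := layer N hN
  have h3 : ∀ ψ ∈ Fil N 3, Zk87.PL.Th ψ = 0 → ψ ∈ Fil N 5 :=
    fun ψ hψ h0 => four_five hN (three_four hψ h0)
  refine ⟨four_five hN, ?_, ?_⟩
  · have hs : Subsingleton (Fil N 3 ⧸ (Fil N 3).submoduleOf (Fil N 3)) := by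
      rw [Submodule.Quotient.subsingleton_iff, Submodule.submoduleOf_self]
    have h4 := Zk87.PL.two_step (Fil N 3) (Fil N 3) (Fil N 5) W inferInstance h1 h3
    refine ⟨h4.1, h4.2.trans ?_⟩
    rw [Module.finrank_zero_of_subsingleton, zero_add]
    exact h2
  · have key : ∀ ψ ∈ Fil N 0, co ψ (List.replicate (N - 1) 0 ++ [1]) = 0 → ψ ∈ Fil N 3 := by
      rintro ψ ⟨h1, h2⟩ h3
      exact ⟨h1, fun u hu => ⟨(h2 u hu).1, Y759.QS.filt_odd h1 (fun v hv => (h2 v hv).1) hN h3 u hu⟩⟩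
    have h5 := Y759.QS.quot_le (Fil N 0) (Fil N 3) {List.replicate (N - 1) 0 ++ [1]}
      fun ψ hψ h => key ψ hψ (h _ (Finset.mem_singleton_self _))
    rw [Finset.card_singleton] at h5
    have h4 := Zk87.PL.two_step (Fil N 0) (Fil N 3) (Fil N 5) W h5.1 h1 h3
    exact ⟨h4.1, h4.2.trans (Nat.add_le_add h5.2 h2)⟩

end Pool.Agent.Results.MP_ec2393_nt.OddWeightFourLetters
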