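import Mathlib
import Pool.Agent.Zk87.MI.Two4

/-!
# MP_ec2393_nt: the lowest layers of the double shuffle Lie algebra at quadratic elements

Let `k ≥ 2` and let `f ∈ dm` be homogeneous of weight `N` with at least `k` letters `x₀` in each of
its words; let `f_k` be its part with exactly `k` letters `x₀`.  Then `f_k(x₁ ↦ X, x₀ ↦ Y) = 0` for
all elements `X`, `Y` of a `ℚ`-algebra such that `X` satisfies a quadratic equation with central
coefficients; in particular for all 2 × 2 matrices over a commutative `ℚ`-algebra.  There is no
condition on the parity of `N + k`.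

Method.  Write `C(a₀, …, a_k)` for the coefficient of `f` at `x₁^{a₀} x₀ x₁^{a₁} ⋯ x₀ x₁^{a_k}`, and
`Γ(S)` for the sum of the `C(a)` such that the set of the `i` with `a_i > 0` is `S`.  For an
idempotent `X` the coefficients of `f_k(X, Y)` are the `Γ(S)`.  The stuffle relations of the lowest
layer say that the sum over the words `x₁^{a₀} x₀ ⋯ x₀ x₁^{a_k}` with `a_k > 0` and given nonempty
blocks except for the first one vanishes (these are the relations of the monomial quasi-symmetric
functions, applied to `x₁^{N - k}`): so `Γ(S) = - Γ(S ∪ {0})` if `k ∈ S` and `0 ∉ S`.  The `Γ(S)` are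
invariant under rotations, so they are equal up to signs for all `S ≠ ∅`; and `Γ({0}) = C(N - k, 0,
…, 0) = 0`.  The general case follows by homogeneity and by the translations `X ↦ X + z`, `z`
central, as `f` is a Lie polynomial.
-/

set_option autoImplicit false

namespace Pool.Agent.Results.MP_ec2393_nt.QuadraticElements

open Pool.Agent.H777R4.DM

/-- The part of `f` with exactly `k` letters `x₀`, evaluated at `x₁ = X` and `x₀ = Y`. -/
noncomputable def part {R : Type} [Ring R] [Algebra ℚ R] (k : ℕ) (f : A) (X Y : R) : R :=
  lext (fun u => if u.count 0 = k then (u.map fun i => if i = 1 then X else Y).prod else 0) f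

/-- Let `k ≥ 2` and let `f ∈ dm` be homogeneous of weight `N`, with at least `k` letters `x₀` in
each of its words.  The part of `f` with exactly `k` letters `x₀` vanishes if `x₁` is replaced by an
element `X` with `X² = s X + t`, `s`, `t` central, of a `ℚ`-algebra, and `x₀` by any element `Y`; so
it vanishes on the 2 × 2 matrices over a commutative `ℚ`-algebra. -/
theorem result (N k : ℕ) (hk : 2 ≤ k) (f : A) (hf : IsDM f)
    (h : ∀ u, co f u ≠ 0 → u.length = N ∧ k ≤ u.count 0) :
    (∀ (R : Type) [Ring R] [Algebra ℚ R] (X Y s t : R), (∀ r : R, s * r = r * s) →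
      (∀ r : R, t * r = r * t) → X * X = s * X + t → part k f X Y = 0) ∧
    (∀ (R : Type) [CommRing R] [Algebra ℚ R] (X Y : Matrix (Fin 2) (Fin 2) R),
      part k f X Y = 0) := by
  have hN : LenHom f N := fun u hu => (h u hu).1
  have hm : ∀ u, co f u ≠ 0 → k ≤ u.count 0 := fun u hu => (h u hu).2
  refine ⟨?_, ?_⟩
  · intro R _ _ X Y s t hs ht hX
    exact Zk87.MI.pt_quad_all hf hN hm hk X Y s t hs ht hX
  · intro R _ _ X Y
    exact Zk87.MI.pt_two hf hN hm hk X Y

end Pool.Agent.Results.MP_ec2393_nt.QuadraticElements
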