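import Mathlib
import Pool.Agent.Zk87.MI.Fin
import Pool.Agent.Zk87.MI.Co

/-!
# MP_ec2393_nt: the lowest layers of the double shuffle Lie algebra on small matrices

Let `k ≥ 2` and let `f ∈ dm` be homogeneous of weight `N` with at least `k` letters `x₀` in each of
its words.  Let `f_k` be its part with exactly `k` letters `x₀`.  Evaluate `x₁ ↦ X`, `x₀ ↦ Y` with
square matrices `X`, `Y` over a field `K` of characteristic zero.

* `tr(Y f_k(X, Y)) = 0` if `Y` is of rank at most one up to a scalar.
* Let `N + k` be odd.  Then `f_k(X, Y) = 0` for all 3 × 3 matrices, and for all `n × n` matrices if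
  `Y` is of rank at most one up to a scalar; `tr(Y f_k(X, Y)) = 0` if `Y` is of rank at most two up
  to a scalar.
* The coefficients of `f` at the words `x₁^{a₀} x₀ x₁^{a₁} ⋯ x₀ x₁^{a_k}` with `k - 1` equal
  exponents `c` and two further exponents `a`, `b` are multiples of one of them by signed binomial
  coefficients, and they vanish if `N + k` is odd.

Method.  The coefficients `C(a₀, …, a_k)` are invariant under rotations, they are killed by the
insertions of one entry (with the first entry fixed), and the reversal of the list multiplies them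
by `(-1) ^ (N + 1)`.  So `𝒢(H) = ∑ C(a₀, …, a_k) tr(H_{a₀} ⋯ H_{a_k})` does not change if arbitrary
scalars are added to the matrices `H_a` (`TT_shift`: the derivative is a sum over insertions, which
is orthogonal to the cyclic functions).  For 2 × 2 matrices the adjugate is an antiautomorphism with
`adj H = tr H - H`, so `𝒢(H) = (-1) ^ (N + k) 𝒢(H)`.  If `Y = P Q`, then
`tr(Y f_k(X, Y)) = 𝒢(H)` with `H_a = Q X ^ a P`, a matrix of the size of the rank of `Y`.  As `f` is
a Lie polynomial, `f_k(X, Y + z) = f_k(X, Y)` and `tr f_k = 0`; over an algebraically closed field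
every 3 × 3 matrix is of rank at most two up to a scalar; and `f_k` is, up to the factor `k + 1`, the
gradient of the function `Y ↦ tr(Y f_k(X, Y))`.
-/

set_option autoImplicit false

namespace Pool.Agent.Results.MP_ec2393_nt.SmallMatrices

open Pool.Agent.H777R4.DM
open Pool.Agent.R241.DL (blk)

/-- The part of `f` with exactly `k` letters `x₀`, evaluated at `x₁ = X` and `x₀ = Y`. -/
noncomputable def part {K : Type} [Field K] [CharZero K] {n : ℕ} (k : ℕ) (f : A)
    (X Y : Matrix (Fin n) (Fin n) K) : Matrix (Fin n) (Fin n) K :=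
  lext (fun u => if u.count 0 = k then (u.map fun i => if i = 1 then X else Y).prod else 0) f

/-- Let `k ≥ 2` and let `f ∈ dm` be homogeneous of weight `N`, with at least `k` letters `x₀` in
each of its words.  The first conjunct holds for both parities of `N + k`, the second one is for
odd `N + k`. -/
theorem result (N k : ℕ) (hk : 2 ≤ k) (f : A) (hf : IsDM f)
    (h : ∀ u, co f u ≠ 0 → u.length = N ∧ k ≤ u.count 0) :
    ((∀ (K : Type) [Field K] [CharZero K],
        ∀ (n : ℕ) (X Y : Matrix (Fin n) (Fin n) K) (z : K), (Y - z • 1).rank ≤ 1 →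
          (Y * part k f X Y).trace = 0) ∧
      (∀ a b c i j : ℕ, i + j + 1 = k →
        co f (blk (a :: (List.replicate i c ++ b :: List.replicate j c))) =
          (-1) ^ i * ((k - 1).choose i : ℚ) *
            co f (blk (a :: b :: List.replicate (k - 1) c)))) ∧
    (Odd (N + k) →
      (∀ (K : Type) [Field K] [CharZero K],
        (∀ X Y : Matrix (Fin 3) (Fin 3) K, part k f X Y = 0) ∧
        (∀ (n : ℕ) (X Y : Matrix (Fin n) (Fin n) K) (z : K),
          ((Y - z • 1).rank ≤ 1 → part k f X Y = 0) ∧
          ((Y - z • 1).rank ≤ 2 → (Y * part k f X Y).trace = 0))) ∧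
      (∀ a b c i j : ℕ, i + j + 1 = k →
        co f (blk (a :: (List.replicate i c ++ b :: List.replicate j c))) = 0)) := by
  have hN : LenHom f N := fun u hu => (h u hu).1
  have hm : ∀ u, co f u ≠ 0 → k ≤ u.count 0 := fun u hu => (h u hu).2
  refine ⟨⟨?_, ?_⟩, fun hodd => ⟨?_, ?_⟩⟩
  · intro K _ _ n X Y z hY
    exact Zk87.MI.trace_one hf hN hm hk X Y z hY
  · intro a b c i j hij
    exact Zk87.MI.two_all hf hN hm hk a b c i j hij
  · intro K _ _
    refine ⟨?_, ?_⟩
    · exact Zk87.MI.descend (fun a b => Zk87.MI.pt_three_closed hf hN hm hk hodd a b)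
    · intro n X Y z
      exact ⟨fun hY => Zk87.MI.pt_rank_one hf hN hm hk hodd X Y z hY,
        fun hY => Zk87.MI.trace_two hf hN hm hk hodd X Y z hY⟩
  · intro a b c i j hij
    exact Zk87.MI.two_wrong hf hN hm hk hodd a b c i j hij

end Pool.Agent.Results.MP_ec2393_nt.SmallMatrices
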